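import Pool.Agent.K4W.StmtsU

/-!
# Squad K4W, row UPO
-/

set_option autoImplicit false

namespace Pool.Agent.K4W.H38

/-- Symmetry of `U`. -/
private theorem upo_symm (h1 : UexStmt) (f : ℤ → ℂ) (a b : ℕ) (ha : 1 ≤ a) (hb : 1 ≤ b)
    (hf : Summable fun x : ℤ => ‖f x‖) : U f a b = U f b a := by
  have e1 := (h1 f a b ha hb hf).2
  have e2 := (h1 f b a hb ha hf).2
  have e3 : ((U f a b : ℝ) : ℂ) = ((U f b a : ℝ) : ℂ) := by
    rw [e1, e2, ← (Equiv.prodComm ℤ ℤ).tsum_eq]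
    refine tsum_congr fun p => tsum_congr fun x => ?_
    simp only [Equiv.prodComm_apply, Prod.fst_swap, Prod.snd_swap]
    rw [F4, F4]
    have e4 : x + (a : ℤ) * p.1 + (b : ℤ) * p.2 = x + (b : ℤ) * p.2 + (a : ℤ) * p.1 := by ring
    rw [e4]
    ring
  exact_mod_cast e3

/-- Row UPO. -/
theorem upo (h1 : UexStmt) (h2 : UcsStmt) : UpoStmt := by
  intro f μ hμ hf
  constructor
  · rw [U]
    exact tsum_nonneg fun h => Finset.sum_nonneg fun c _ => sq_nonneg _
  · have e1 := h2 f 2 1 (by norm_num) le_rfl hf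
    have e2 := h2 f (2 * μ) 2 (by omega) (by norm_num) hf
    rw [upo_symm h1 f 2 1 (by norm_num) le_rfl hf] at e1
    push_cast at e1 e2
    linarith

end Pool.Agent.K4W.H38
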