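import Pool.Agent.K4W.StmtsW

/-!
# Squad K4W, row WVA
-/

set_option autoImplicit false

open Polynomial

namespace Pool.Agent.K4W.H38

/-- The coefficients `ec g i` of a monic polynomial of degree `n`, `i ≤ n`. -/
private theorem wva_ec {K : Type} [Field K] (g : K[X]) {n i : ℕ} (hn : g.natDegree = n)
    (hi : i ≤ n) : ec g i = (-1) ^ i * g.coeff (n - i) := by
  rw [ec, coeff_reverse, hn, revAt_le hi]

/-- The value of `lam` after adding `X ^ (n - 4)`. -/
private theorem wva_lam {K : Type} [Field K] (A B : K) (g : K[X]) {n : ℕ} (h4 : 4 ≤ n)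
    (hn : g.natDegree = n) (hn' : (g + X ^ (n - 4)).natDegree = n) :
    lam A B (g + X ^ (n - 4)) = lam A B g + -(4 * A) := by
  have e1 : ec (g + X ^ (n - 4)) 1 = ec g 1 := by
    rw [wva_ec _ hn' (by omega), wva_ec g hn (by omega), coeff_add, coeff_X_pow, if_neg (by omega),
      add_zero]
  have e2 : ec (g + X ^ (n - 4)) 2 = ec g 2 := by
    rw [wva_ec _ hn' (by omega), wva_ec g hn (by omega), coeff_add, coeff_X_pow, if_neg (by omega),
      add_zero]
  have e3 : ec (g + X ^ (n - 4)) 3 = ec g 3 := by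
    rw [wva_ec _ hn' (by omega), wva_ec g hn (by omega), coeff_add, coeff_X_pow, if_neg (by omega),
      add_zero]
  have e4 : ec (g + X ^ (n - 4)) 4 = ec g 4 + 1 := by
    rw [wva_ec _ hn' (by omega), wva_ec g hn (by omega), coeff_add, coeff_X_pow_self]
    ring
  rw [lam, lam, e1, e2, e3, e4]
  ring

/-- Row WVA. -/
theorem wva (hmn : WmnStmt) : WvaStmt := by
  intro p _ A B n hp5 hA hn
  have hp : p.Prime := Fact.out
  have hdeg : ∀ g : (ZMod p)[X], g.Monic → g.natDegree = n →
      (X ^ (n - 4) : (ZMod p)[X]).natDegree < g.natDegree := by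
    intro g _ hg
    rw [natDegree_X_pow, hg]
    omega
  have hadd : ∀ g : (ZMod p)[X], g.Monic → g.natDegree = n →
      (g + X ^ (n - 4)).Monic ∧ (g + X ^ (n - 4)).natDegree = n := by
    intro g hg hg'
    refine ⟨hg.add_of_left (degree_lt_degree (hdeg g hg hg')), ?_⟩
    rw [natDegree_add_eq_left_of_natDegree_lt (hdeg g hg hg'), hg']
  have hsub : ∀ g : (ZMod p)[X], g.Monic → g.natDegree = n →
      (g - X ^ (n - 4)).Monic ∧ (g - X ^ (n - 4)).natDegree = n := by
    intro g hg hg'
    refine ⟨hg.sub_of_left (degree_lt_degree (hdeg g hg hg')), ?_⟩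
    rw [natDegree_sub_eq_left_of_natDegree_lt (hdeg g hg hg'), hg']
  have h1 : an p A B n = ZMod.stdAddChar (-(4 * A)) * an p A B n := by
    conv_rhs => rw [an, Finset.mul_sum]
    rw [an]
    symm
    refine Finset.sum_bij' (fun g _ => g + X ^ (n - 4)) (fun g _ => g - X ^ (n - 4)) ?_ ?_ ?_ ?_ ?_
    · intro g hg
      obtain ⟨h, h'⟩ := (hmn p n g).1 hg
      exact (hmn p n _).2 (hadd g h h')
    · intro g hg
      obtain ⟨h, h'⟩ := (hmn p n g).1 hg
      exact (hmn p n _).2 (hsub g h h')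
    · intro g _
      exact add_sub_cancel_right _ _
    · intro g _
      exact sub_add_cancel _ _
    · intro g hg
      obtain ⟨h, h'⟩ := (hmn p n g).1 hg
      rw [chi, chi, wva_lam A B g hn h' (hadd g h h').2, AddChar.map_add_eq_mul, mul_comm]
  have h2 : (ZMod.stdAddChar (-(4 * A)) : ℂ) ≠ 1 := by
    intro h
    have h3 : (ZMod.stdAddChar (-(4 * A)) : ℂ) = ZMod.stdAddChar (0 : ZMod p) := by
      rw [h, AddChar.map_zero_eq_one]
    have h4 := ZMod.injective_stdAddChar h3
    have h5 : (4 : ZMod p) * A = 0 := by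
      rw [neg_eq_zero] at h4
      exact h4
    rcases mul_eq_zero.1 h5 with h6 | h6
    · have h7 : ((4 : ℕ) : ZMod p) = 0 := by
        exact_mod_cast h6
      rw [ZMod.natCast_eq_zero_iff] at h7
      have := Nat.le_of_dvd (by norm_num) h7
      omega
    · exact hA h6
  have h3 : (1 - ZMod.stdAddChar (-(4 * A))) * an p A B n = 0 := by
    rw [sub_mul, one_mul, ← h1, sub_self]
  rcases mul_eq_zero.1 h3 with h4 | h4
  · exact absurd (sub_eq_zero.1 h4).symm h2
  · exact h4

end Pool.Agent.K4W.H38
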