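import Pool.Agent.K4W.StmtsW

/-!
# Squad K4W, row WLS
-/

set_option autoImplicit false

open Polynomial

namespace Pool.Agent.K4W.H38

/-- The bound for the degrees. -/
private theorem wls_deg {K : Type} [Field K] {p m : ℕ} (g : K[X]) (c : K) (I J : ℕ → ℕ)
    (hp5 : 5 ≤ p) (hm : 1 ≤ m) (hIJ : IJ p I J)
    (hg : g.natDegree ≤ 4 * p ^ (m - 1)) (w t : ℕ)
    (hw : w ∈ Finset.Icc (4 * p) (p ^ m + 12 * p)) (ht : t < p ^ (m - 1)) :
    (X ^ (t * p ^ m + I w) * (C c - g) ^ J w : K[X]) ∈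
      degreeLT K ((p ^ (m - 1) - 1) * p ^ m + (p ^ (m - 1) + 12) +
        4 * p ^ (m - 1) * (p - 1) + 1) := by
  obtain ⟨hw1, hw2⟩ := Finset.mem_Icc.1 hw
  obtain ⟨hJ, hI⟩ := hIJ w hw1
  have hQ : p ^ m = p * p ^ (m - 1) := by
    rw [← pow_succ', Nat.sub_add_cancel hm]
  set Q' := p ^ (m - 1) with hQ'
  have hQ'1 : 1 ≤ Q' := Nat.one_le_pow _ _ (by omega)
  have hI2 : I w ≤ Q' + 12 := by
    have h1 : p * I w ≤ p * (Q' + 12) := by
      have : p * I w ≤ w := by omega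
      calc p * I w ≤ p ^ m + 12 * p := this.trans hw2
        _ = p * (Q' + 12) := by rw [hQ]; ring
    exact Nat.le_of_mul_le_mul_left h1 (by omega)
  have h1 : (X ^ (t * p ^ m + I w) * (C c - g) ^ J w : K[X]).natDegree ≤
      (t * p ^ m + I w) + J w * (4 * Q') := by
    refine natDegree_mul_le.trans (add_le_add (natDegree_X_pow_le _) ?_)
    refine natDegree_pow_le.trans (Nat.mul_le_mul_left _ ?_)
    refine (natDegree_sub_le _ _).trans (max_le ?_ hg)
    rw [natDegree_C]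
    exact Nat.zero_le _
  rw [mem_degreeLT]
  refine lt_of_le_of_lt degree_le_natDegree (Nat.cast_lt.2 ?_)
  have h2 : t * p ^ m ≤ (Q' - 1) * p ^ m := Nat.mul_le_mul_right _ (by omega)
  have h3 : J w * (4 * Q') ≤ 4 * Q' * (p - 1) := by
    rw [mul_comm (J w)]
    exact Nat.mul_le_mul_left _ (by omega)
  omega

/-- Counting. -/
private theorem wls_count {p m : ℕ} (hp5 : 5 ≤ p) (hm : 1 ≤ m) :
    (p ^ (m - 1) - 1) * p ^ m + (p ^ (m - 1) + 12) + 4 * p ^ (m - 1) * (p - 1) + 1 <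
      (p ^ m + 12 * p + 1 - 4 * p) * p ^ (m - 1) := by
  have hQ : p ^ m = p * p ^ (m - 1) := by
    rw [← pow_succ', Nat.sub_add_cancel hm]
  rw [hQ]
  have hQ'1 : 1 ≤ p ^ (m - 1) := Nat.one_le_pow _ _ (by omega)
  generalize p ^ (m - 1) = Q at hQ'1 ⊢
  obtain ⟨q, rfl⟩ : ∃ q, Q = q + 1 := ⟨Q - 1, by omega⟩
  obtain ⟨r, rfl⟩ : ∃ r, p = r + 5 := ⟨p - 5, by omega⟩
  have e1 : q + 1 - 1 = q := by omega
  have e2 : r + 5 - 1 = r + 4 := by omega
  have e3 : (r + 5) * (q + 1) + 12 * (r + 5) + 1 - 4 * (r + 5) =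
      (r + 5) * (q + 1) + 8 * (r + 5) + 1 := by omega
  rw [e1, e2, e3]
  nlinarith [Nat.zero_le (q * r), Nat.zero_le q, Nat.zero_le r]

/-- Row WLS. -/
theorem wls : WlsStmt := by
  intro p m K _ _ _ g c I J hp hp5 hm hIJ hg
  classical
  have : Fact p.Prime := ⟨hp⟩
  set S := Finset.Icc (4 * p) (p ^ m + 12 * p) with hS
  set D := (p ^ (m - 1) - 1) * p ^ m + (p ^ (m - 1) + 12) + 4 * p ^ (m - 1) * (p - 1) + 1
    with hD
  let v : {w // w ∈ S} × Fin (p ^ (m - 1)) → degreeLT K D := fun i =>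
    ⟨X ^ ((i.2 : ℕ) * p ^ m + I i.1) * (C c - g) ^ J i.1,
      wls_deg g c I J hp5 hm hIJ hg i.1 i.2 i.1.2 i.2.2⟩
  have hfr : Module.finrank K (degreeLT K D) = D :=
    (degreeLTEquiv K D).finrank_eq.trans (Module.finrank_fin_fun K)
  have : Module.Finite K (degreeLT K D) :=
    Module.Finite.equiv (degreeLTEquiv K D).symm
  have hnot : ¬ LinearIndependent K v := by
    intro h
    have h1 := h.fintype_card_le_finrank
    rw [hfr, Fintype.card_prod, Fintype.card_coe, Fintype.card_fin, hS, Nat.card_Icc] at h1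
    have h2 := wls_count (p := p) (m := m) hp5 hm
    omega
  obtain ⟨β, hβ, i0, hi0⟩ := Fintype.not_linearIndependent_iff.1 hnot
  have hsurj : Function.Surjective (iterateFrobenius K p m) :=
    Finite.injective_iff_surjective.1 (RingHom.injective _)
  choose α hα using fun i => hsurj (β i)
  have hα' : ∀ i, α i ^ p ^ m = β i := fun i => by
    rw [← iterateFrobenius_def]; exact hα i
  refine ⟨fun w => if h : w ∈ S then
    ∑ t : Fin (p ^ (m - 1)), C (α (⟨w, h⟩, t)) * X ^ (t : ℕ) else 0, ?_, ?_, ?_⟩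
  · intro w
    by_cases h : w ∈ S
    · simp only [h, dif_pos]
      exact degree_sum_fin_lt _
    · simp only [h, dif_neg, not_false_iff]
      rw [degree_zero]
      exact WithBot.bot_lt_coe _
  · refine ⟨i0.1, i0.1.2, ?_⟩
    simp only [i0.1.2, dif_pos]
    intro h0
    have h1 : (∑ t : Fin (p ^ (m - 1)), C (α (i0.1, t)) * X ^ (t : ℕ) : K[X]).coeff
        (i0.2 : ℕ) = α (i0.1, i0.2) := by
      rw [finsetSum_coeff]
      rw [Finset.sum_eq_single i0.2]
      · rw [coeff_C_mul, coeff_X_pow_self, mul_one]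
      · intro t _ ht
        rw [coeff_C_mul, coeff_X_pow, if_neg, mul_zero]
        intro h
        exact ht (Fin.ext h.symm)
      · intro h
        exact absurd (Finset.mem_univ _) h
    have h2 : α (i0.1, i0.2) = 0 := by
      rw [← h1]
      rw [h0]
      exact coeff_zero _
    apply hi0
    rw [← hα' i0]
    have : α i0 = 0 := h2
    rw [this]
    exact zero_pow (pow_ne_zero _ hp.ne_zero)
  · have h1 : (∑ i, β i • v i : degreeLT K D) = 0 := hβ
    have h2 : ((∑ i, β i • v i : degreeLT K D) : K[X]) = 0 := by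
      rw [h1]; rfl
    rw [← Finset.sum_coe_sort S]
    rw [Fintype.sum_prod_type, AddSubmonoidClass.coe_finsetSum] at h2
    rw [← h2]
    refine Finset.sum_congr rfl fun w _ => ?_
    rw [AddSubmonoidClass.coe_finsetSum]
    simp only [w.2, dif_pos]
    rw [sum_pow_char_pow, Finset.sum_mul, Finset.sum_mul]
    refine Finset.sum_congr rfl fun t _ => ?_
    rw [mul_pow, ← C_pow, hα', ← pow_mul]
    change C (β (w, t)) * X ^ ((t : ℕ) * p ^ m) * X ^ I w * (C c - g) ^ J w =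
      β (w, t) • (X ^ ((t : ℕ) * p ^ m + I w) * (C c - g) ^ J w)
    rw [smul_eq_C_mul, pow_add]
    ring

end Pool.Agent.K4W.H38
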