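import Pool.Agent.Helper66_K4W.WMU
import Pool.Agent.Helper76_K4W.WLP
import Pool.Agent.Helper76_K4W.WMP
import Pool.Agent.Helper76_K4W.WMN
import Pool.Agent.Helper38_K4W.WVA
import Pool.Agent.Helper24_K4W.WAO
import Pool.Agent.Helper62_K4W.WDG
import Pool.Agent.Helper76_K4W.WML
import Pool.Agent.Helper34_K4W.WRL
import Pool.Agent.Helper33_K4W.WFB
import Pool.Agent.Helper19_K4W.WRT
import Pool.Agent.Helper14_K4W.WEX
import Pool.Agent.Helper24_K4W.WCH
import Pool.Agent.Helper24_K4W.WDB
import Pool.Agent.Helper38_K4W.WLS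
import Pool.Agent.Helper14_K4W.WPT
import Pool.Agent.Helper43_K4W.WST
import Pool.Agent.Helper95_K4W.WNT
import Pool.Agent.Helper76_K4W.WPW
import Pool.Agent.Helper8_K4W.WFI
import Pool.Agent.Helper65_K4W.WEI

/-!
# Squad K4W: assembly of block W (Weil's bound for `a x ^ 4 + b x`)
-/

set_option autoImplicit false

namespace Pool.Agent.K4W.H38

/-- Weil's bound for the sums of `e((A x ^ 4 + B x) / p)` over the field with `p` elements. -/
theorem wfi_all : WfiStmt :=
  have hmn : WmnStmt := H76.wmn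
  have hmu : WmuStmt := H66.wmu
  have hrl : WrlStmt := H34.wrl (H62.wdg hmn) (H76.wml hmu hmn)
  have hex : WexStmt := H14.wex hmu (H76.wlp hmu) H76.wmp hmn H33.wfb (H19.wrt hmn)
  have hst : WstStmt := H43.wst (H14.wpt H24.wch H24.wdb wls)
  H8.wfi (wva hmn) H24.wao hrl hex hst H95.wnt H76.wpw

/-- Block W: Weil's bound for the complete sums `VM.Sc 4 p b m`. -/
theorem weil : WeilStmt := H65.wei wfi_all

end Pool.Agent.K4W.H38
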